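import Pool.Agent.Helper98.LM.St

/-!
# LM CHB: Cauchy-Schwarz
-/

set_option autoImplicit false

namespace Pool.Agent.Helper55.LM

open Finset Filter
open Pool.Agent.Helper98.LM
open Pool.Agent.Helper18.TR (StFL)
open Pool.Agent.Helper15.AB (StMT)
open Pool.Agent.Helper30.LQ (StMR4)

private lemma ev_log (c d : ℝ) (hc : 0 < c) (n : ℕ) :
    ∀ᶠ x : ℝ in atTop, d * Real.log x ^ n ≤ c * x ^ (1 / 2 : ℝ) := by
  have h := isLittleO_log_rpow_rpow_atTop (n : ℝ) (by norm_num : (0 : ℝ) < 1 / 2)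
  have hd : 0 < c / (|d| + 1) := by positivity
  have h1 := h.bound hd
  filter_upwards [h1, eventually_ge_atTop (1 : ℝ)] with x hx hx1
  have hl : 0 ≤ Real.log x := Real.log_nonneg hx1
  rw [Real.rpow_natCast, Real.norm_of_nonneg (pow_nonneg hl n),
    Real.norm_of_nonneg (by positivity)] at hx
  have h2 : d * Real.log x ^ n ≤ (|d| + 1) * Real.log x ^ n :=
    mul_le_mul_of_nonneg_right (by linarith [le_abs_self d]) (pow_nonneg hl n)
  refine h2.trans ?_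
  have h3 := mul_le_mul_of_nonneg_left hx (by positivity : (0 : ℝ) ≤ |d| + 1)
  refine h3.trans (le_of_eq ?_)
  field_simp

/-- the counting by Cauchy-Schwarz -/
private lemma cs (M : ℕ) (X : ℕ → ℕ) :
    (∑ m ∈ Icc 1 M, (X m : ℝ)) ^ 2 ≤
      (((Icc 1 M).filter (fun m : ℕ => 0 < X m)).card : ℝ) * ∑ m ∈ Icc 1 M, (X m : ℝ) ^ 2 := by
  have h1 : ∑ m ∈ (Icc 1 M).filter (fun m : ℕ => 0 < X m), (X m : ℝ) =
      ∑ m ∈ Icc 1 M, (X m : ℝ) := by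
    refine sum_filter_of_ne fun m _ h => ?_
    rcases Nat.eq_zero_or_pos (X m) with h0 | h0
    · exact absurd (by rw [h0]; norm_num) h
    · exact h0
  rw [← h1]
  refine sq_sum_le_card_mul_sum_sq.trans ?_
  refine mul_le_mul_of_nonneg_left ?_ (by positivity)
  exact sum_le_sum_of_subset_of_nonneg (filter_subset _ _) fun _ _ _ => sq_nonneg _

/-- the final inequality -/
private lemma fin_ineq (N μ t M S1 S2 : ℝ) (hM : 0 < M) (ht : 0 < t) (hμ : t ≤ μ)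
    (h1 : μ * M / 4 ≤ S1) (h2 : S2 ≤ 2 * μ ^ 2 * M + 4 * μ * M) (h3 : S1 ^ 2 ≤ N * S2)
    (hN : 0 ≤ N) : t / (32 * t + 64) * M ≤ N := by
  have hμ0 : 0 < μ := lt_of_lt_of_le ht hμ
  have h4 : (μ * M / 4) ^ 2 ≤ N * (2 * μ ^ 2 * M + 4 * μ * M) :=
    (pow_le_pow_left₀ (by positivity) h1 2).trans (h3.trans (mul_le_mul_of_nonneg_left h2 hN))
  have h5 : μ * M * (μ * M) ≤ μ * M * (N * (32 * μ + 64)) := by nlinarith
  have h6 : μ * M ≤ N * (32 * μ + 64) := le_of_mul_le_mul_left h5 (by positivity)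
  have h7 : t / (32 * t + 64) * M ≤ μ / (32 * μ + 64) * M := by
    refine mul_le_mul_of_nonneg_right ?_ hM.le
    rw [div_le_div_iff₀ (by positivity) (by positivity)]
    nlinarith
  refine h7.trans ?_
  rw [div_mul_eq_mul_div, div_le_iff₀ (by positivity)]
  exact h6

/-- **Module CHB.** -/
theorem hCHB (h1 : StMO1) (h2 : StMO2) (hV : StVLB) : StCHB := by
  obtain ⟨B₁, q₁, hq₁, H1⟩ := h1 (1 / 2) (by norm_num) (by norm_num)
  obtain ⟨B₂, q₂, -, H2⟩ := h2 (1 / 2) (by norm_num) (by norm_num)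
  obtain ⟨c, hc, HV⟩ := hV
  obtain ⟨δ, hδ⟩ : ∃ δ : ℝ, δ = 1 / (2 * ((B₁ : ℝ) + B₂) + 2) := ⟨_, rfl⟩
  have hB₁ : (0 : ℝ) ≤ B₁ := Nat.cast_nonneg _
  have hB₂ : (0 : ℝ) ≤ B₂ := Nat.cast_nonneg _
  have hδ0 : 0 < δ := by rw [hδ]; positivity
  have hδ1 : δ ≤ 1 := by
    rw [hδ, div_le_one (by positivity)]
    linarith
  have hδB₁ : δ * B₁ ≤ 1 / 2 := by
    rw [hδ, div_mul_eq_mul_div, div_le_iff₀ (by positivity)]
    linarith
  have hδB₂ : δ * B₂ ≤ 1 / 2 := by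
    rw [hδ, div_mul_eq_mul_div, div_le_iff₀ (by positivity)]
    linarith
  refine ⟨δ, hδ0, hδ1, max q₁ q₂, hq₁.trans (le_max_left _ _), fun p P hp hP hl c₁ hc₁ => ?_⟩
  obtain ⟨J₁, -, H1⟩ := H1 p P ((le_max_left _ _).trans hp) hP hl
  obtain ⟨J₂, -, H2⟩ := H2 p P ((le_max_right _ _).trans hp) hP hl
  have hp7 : 7 ≤ p := (hq₁.trans (le_max_left _ _)).trans hp
  have ev1 := ev_log c 4 hc 1
  have ev2 := ev_log (c ^ 2) 4 (by positivity) 2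
  have ev3 := (tendsto_rpow_atTop hδ0).eventually_ge_atTop (3 : ℝ)
  have ev4 := Real.tendsto_log_atTop.eventually_ge_atTop (max 1 (((J₁ : ℝ) + J₂) / c₁))
  obtain ⟨x₀, hx₀⟩ := eventually_atTop.1
    (((ev1.and ev2).and (ev3.and ev4)).and (eventually_ge_atTop (1 : ℝ)))
  refine ⟨c₁ * c / (32 * (c₁ * c) + 64), by positivity, ⌈x₀⌉₊, fun M J a r hM hJ hr => ?_⟩
  obtain ⟨⟨⟨e1, e2⟩, e3, e4⟩, hM1⟩ := hx₀ (M : ℝ) (Nat.ceil_le.1 hM)
  rw [pow_one] at e1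
  have hL1 : 1 ≤ Real.log M := (le_max_left _ _).trans e4
  have hJ12 : ((J₁ : ℝ) + J₂) ≤ J := by
    have := (le_max_right _ _).trans e4
    rw [div_le_iff₀ hc₁] at this
    linarith
  have hJ₁ : J₁ ≤ J := by
    have h0 : (0 : ℝ) ≤ J₂ := Nat.cast_nonneg _
    exact_mod_cast (by linarith : (J₁ : ℝ) ≤ J)
  have hJ₂ : J₂ ≤ J := by
    have h0 : (0 : ℝ) ≤ J₁ := Nat.cast_nonneg _
    exact_mod_cast (by linarith : (J₂ : ℝ) ≤ J)
  obtain ⟨w, hw⟩ : ∃ w : ℕ, w = ⌊(M : ℝ) ^ δ⌋₊ := ⟨_, rfl⟩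
  rw [← hw]
  have hw3 : 3 ≤ w := by
    rw [hw]
    exact Nat.le_floor (by exact_mod_cast e3)
  have hM0 : (0 : ℝ) ≤ M := by linarith
  have hwle : (w : ℝ) ≤ (M : ℝ) ^ δ := by
    rw [hw]
    exact Nat.floor_le (by positivity)
  have hwM : (w : ℝ) ≤ M := by
    refine hwle.trans ?_
    calc (M : ℝ) ^ δ ≤ (M : ℝ) ^ (1 : ℝ) := Real.rpow_le_rpow_of_exponent_le hM1 hδ1
      _ = M := Real.rpow_one _
  have hwB : ∀ B : ℕ, δ * B ≤ 1 / 2 → (w : ℝ) ^ B ≤ (M : ℝ) ^ (1 / 2 : ℝ) := by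
    intro B hB
    calc (w : ℝ) ^ B ≤ ((M : ℝ) ^ δ) ^ B := pow_le_pow_left₀ (Nat.cast_nonneg _) hwle B
      _ = (M : ℝ) ^ (δ * B) := by rw [← Real.rpow_natCast, ← Real.rpow_mul hM0]
      _ ≤ (M : ℝ) ^ (1 / 2 : ℝ) := Real.rpow_le_rpow_of_exponent_le hM1 hB
  have hw1 := hwB B₁ hδB₁
  have hw2 := hwB B₂ hδB₂
  obtain ⟨S, hS⟩ : ∃ S : ℝ, S = (M : ℝ) ^ (1 / 2 : ℝ) := ⟨_, rfl⟩
  have hS0 : 0 ≤ S := by rw [hS]; positivity
  have hSS : S * S = M := by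
    rw [hS, ← Real.rpow_add (by linarith)]
    norm_num
  rw [← hS] at e1 e2 hw1 hw2
  obtain ⟨L, hLd⟩ : ∃ L : ℝ, L = Real.log M := ⟨_, rfl⟩
  rw [← hLd] at e1 e2 hL1 hJ
  have hL0 : 0 < L := by linarith
  -- the lower bound for the density
  have hwlog : 0 < Real.log w := Real.log_pos (by
    have : (3 : ℝ) ≤ w := by exact_mod_cast hw3
    linarith)
  have hlogle : Real.log w ≤ L := by
    rw [hLd]
    exact Real.log_le_log (by
      have : (3 : ℝ) ≤ w := by exact_mod_cast hw3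
      linarith) hwM
  obtain ⟨V, hVd⟩ : ∃ V : ℝ, V = VV p w := ⟨_, rfl⟩
  have hVc : c / L ≤ V := by
    rw [hVd]
    exact (div_le_div_of_nonneg_left hc.le hwlog hlogle).trans (HV p w hp7 hw3)
  have hcL : c ≤ V * L := by rwa [div_le_iff₀ hL0] at hVc
  have hV0 : 0 < V := lt_of_lt_of_le (by positivity) hVc
  have hJ0 : (0 : ℝ) ≤ J := Nat.cast_nonneg _
  -- `4 S ≤ V M` and `4 S ≤ V ^ 2 M`
  have k1 : 4 * S ≤ V * M := by
    have h3 : L * 4 ≤ L * (V * S) := by nlinarith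
    have h4 : 4 ≤ V * S := le_of_mul_le_mul_left h3 hL0
    rw [← hSS]
    nlinarith
  have k2 : 4 * S ≤ V ^ 2 * M := by
    have h3 : L ^ 2 * 4 ≤ L ^ 2 * (V ^ 2 * S) := by
      have h5 : c ^ 2 ≤ (V * L) ^ 2 := pow_le_pow_left₀ hc.le hcL 2
      nlinarith
    have h4 : 4 ≤ V ^ 2 * S := le_of_mul_le_mul_left h3 (by positivity)
    rw [← hSS]
    nlinarith
  obtain ⟨m1, -⟩ := H1 J a r w M hJ₁ hr (by omega)
  have m2 := H2 J a r w M hJ₂ hr (by omega)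
  rw [← hVd] at m1 m2
  have hμ : c₁ * c ≤ J * V := by
    calc c₁ * c ≤ c₁ * (V * L) := mul_le_mul_of_nonneg_left hcL hc₁.le
      _ = (c₁ * L) * V := by ring
      _ ≤ J * V := mul_le_mul_of_nonneg_right hJ hV0.le
  refine fin_ineq _ (J * V) (c₁ * c) M _ _ (by linarith) (by positivity) hμ ?_ ?_
    (cs M fun m => XX p w P a r J m) (by positivity)
  · refine le_trans ?_ m1
    have h3 : (J : ℝ) * (w : ℝ) ^ B₁ ≤ J * (V * M / 4) :=
      mul_le_mul_of_nonneg_left (by linarith) hJ0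
    linarith
  · refine m2.trans ?_
    have h3 : (J : ℝ) ^ 2 * (w : ℝ) ^ B₂ ≤ J ^ 2 * (V ^ 2 * M / 4) :=
      mul_le_mul_of_nonneg_left (by linarith) (by positivity)
    linarith

end Pool.Agent.Helper55.LM
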